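import Pool.Agent.H11.MN.Groups

/-!
# Gluing along paths and cycles: finite equivalence classes

A chain of curves glued along the double surfaces of a degeneration: `D` is the finite set of
the darts (an active edge together with one of its two ends), `bar` exchanges the two ends of an
edge, `σ` exchanges the two active darts at a vertex with two sections and fixes the dart at a
vertex with a bisection (a fold).  All the base curves are identified with one set `X`, `g d` is
the gluing isomorphism from the curve of `d` to the curve of `σ d` (an involution for a fold).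
No case distinction between paths and cycles is needed: the points `(d, x)` are permuted by the
involutions `(d, x) ↦ (bar d, x)` and `(d, x) ↦ (σ d, g d x)`; their product is the walk along
the chain, and the classes are finite as soon as the walk has finite order, that is as soon as
the holonomy of every closed walk has finite order.
-/

namespace Pool.Agent.H11.MN

/-! ## Dihedral groups -/

/-- Two involutions whose product has finite order generate a finite group. -/
theorem dihedral_finite {Y : Type*} (B S : Equiv.Perm Y) (hB : B * B = 1) (hS : S * S = 1)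
    {m : ℕ} (hm : 0 < m) (h : (B * S) ^ m = 1) :
    Finite (Subgroup.closure {B, S} : Subgroup (Equiv.Perm Y)) := by
  classical
  have hBi : B⁻¹ = B := inv_eq_of_mul_eq_one_right hB
  have hSi : S⁻¹ = S := inv_eq_of_mul_eq_one_right hS
  set F : Equiv.Perm Y := B * S with hF
  have hord : ∀ k : ℤ, ∃ n : ℕ, n < m ∧ F ^ k = F ^ n := by
    intro k
    refine ⟨(k % m).toNat, ?_, ?_⟩
    · have h1 : 0 ≤ k % m := Int.emod_nonneg _ (by omega)
      have h2 : k % m < m := Int.emod_lt_of_pos _ (by exact_mod_cast hm)
      omega
    · have h1 : 0 ≤ k % m := Int.emod_nonneg _ (by omega)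
      have e1 : F ^ ((k % m).toNat) = F ^ (k % (m : ℤ)) := by
        conv_rhs => rw [← Int.toNat_of_nonneg h1]
        rw [zpow_natCast]
      rw [e1]
      conv_lhs => rw [← Int.emod_add_mul_ediv k m]
      rw [zpow_add, zpow_mul, zpow_natCast, h, one_zpow, mul_one]
  have hSF : ∀ k : ℤ, S * F ^ k = F ^ (-k) * S := by
    intro k
    have e1 : S * F * S⁻¹ = F⁻¹ := by
      rw [hF, mul_inv_rev, hBi, hSi]
      group
      have : S * (B * (S * S)) = S * B := by rw [hS, mul_one]
      simpa [mul_assoc, pow_two] using this
    have e2 : S * F ^ k * S⁻¹ = F ^ (-k) := by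
      rw [← conj_zpow, e1, inv_zpow, zpow_neg]
    rw [← e2]
    group
  let G : Subgroup (Equiv.Perm Y) :=
    { carrier := {f | ∃ k : ℤ, f = F ^ k ∨ f = F ^ k * S}
      one_mem' := ⟨0, Or.inl (by simp)⟩
      mul_mem' := by
        rintro a b ⟨k, hk⟩ ⟨l, hl⟩
        rcases hk with rfl | rfl <;> rcases hl with rfl | rfl
        · exact ⟨k + l, Or.inl (by rw [zpow_add])⟩
        · exact ⟨k + l, Or.inr (by rw [zpow_add, mul_assoc])⟩
        · refine ⟨k + -l, Or.inr ?_⟩
          rw [mul_assoc, hSF, ← mul_assoc, zpow_add]
        · refine ⟨k + -l, Or.inl ?_⟩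
          rw [mul_assoc, ← mul_assoc S, hSF, mul_assoc, hS, mul_one, zpow_add]
      inv_mem' := by
        rintro a ⟨k, rfl | rfl⟩
        · exact ⟨-k, Or.inl (by rw [zpow_neg])⟩
        · refine ⟨k, Or.inr ?_⟩
          rw [mul_inv_rev, hSi, ← zpow_neg, hSF, neg_neg] }
  have hBG : B ∈ G := by
    refine ⟨1, Or.inr ?_⟩
    rw [zpow_one, hF, mul_assoc, hS, mul_one]
  have hSG : S ∈ G := ⟨0, Or.inr (by simp)⟩
  have hGf : (G : Set (Equiv.Perm Y)).Finite := by
    have hsub : (G : Set (Equiv.Perm Y)) ⊆
        ((fun n : ℕ => F ^ n) '' Set.Iio m) ∪ ((fun n : ℕ => F ^ n * S) '' Set.Iio m) := by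
      rintro f ⟨k, rfl | rfl⟩
      · obtain ⟨n, hn, hn'⟩ := hord k
        exact Or.inl ⟨n, hn, hn'.symm⟩
      · obtain ⟨n, hn, hn'⟩ := hord k
        exact Or.inr ⟨n, hn, by rw [hn']⟩
    exact Set.Finite.subset (((Set.finite_Iio m).image _).union ((Set.finite_Iio m).image _)) hsub
  have hle : (Subgroup.closure {B, S} : Subgroup (Equiv.Perm Y)) ≤ G := by
    rw [Subgroup.closure_le]
    rintro f (rfl | rfl)
    · exact hBG
    · exact hSG
  exact (hGf.subset hle).to_subtype

/-- The equivalence classes of the relation generated by a set of permutations which generates a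
finite group are finite. -/
theorem eqvGen_finite_of_group {Y : Type*} (s : Set (Equiv.Perm Y))
    (h : Finite (Subgroup.closure s)) (y : Y) :
    {z | Relation.EqvGen (fun a b => ∃ f ∈ s, b = f a) y z}.Finite := by
  have hsub : {z | Relation.EqvGen (fun a b => ∃ f ∈ s, b = f a) y z} ⊆
      Set.range (fun f : Subgroup.closure s => (f : Equiv.Perm Y) y) := by
    intro z hz
    have key : ∀ a b, Relation.EqvGen (fun a b => ∃ f ∈ s, b = f a) a b →
        ∃ f ∈ Subgroup.closure s, b = f a := by
      intro a b hab
      induction hab with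
      | rel a b h =>
          obtain ⟨f, hf, hb⟩ := h
          exact ⟨f, Subgroup.subset_closure hf, hb⟩
      | refl a => exact ⟨1, Subgroup.one_mem _, rfl⟩
      | symm a b _ ih =>
          obtain ⟨f, hf, hb⟩ := ih
          exact ⟨f⁻¹, Subgroup.inv_mem _ hf, by rw [hb]; simp⟩
      | trans a b c _ _ ih1 ih2 =>
          obtain ⟨f, hf, hb⟩ := ih1
          obtain ⟨f', hf', hb'⟩ := ih2
          exact ⟨f' * f, Subgroup.mul_mem _ hf' hf, by rw [hb', hb]; rfl⟩
    obtain ⟨f, hf, hb⟩ := key y z hz
    exact ⟨⟨f, hf⟩, hb.symm⟩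
  exact Set.Finite.subset (Set.finite_range _) hsub

/-! ## The walk along a chain -/

variable {D X : Type*}

/-- One step of the walk: through the vertex of the dart `d` and across the next edge. -/
def step (bar σ : Equiv.Perm D) (d : D) : D := bar (σ d)

/-- The holonomy of `n` steps of the walk from `d`. -/
def hol (bar σ : Equiv.Perm D) (g : D → Equiv.Perm X) : ℕ → D → Equiv.Perm X
  | 0, _ => 1
  | n + 1, d => g ((step bar σ)^[n] d) * hol bar σ g n d

/-- The involution which exchanges the two ends of an edge. -/
def cross (bar : Equiv.Perm D) : Equiv.Perm (D × X) := Equiv.prodCongr bar (Equiv.refl X)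

/-- The gluing at the vertex of a dart. -/
def glue (σ : Equiv.Perm D) (g : D → Equiv.Perm X) : Equiv.Perm (D × X) where
  toFun p := (σ p.1, g p.1 p.2)
  invFun p := (σ.symm p.1, (g (σ.symm p.1)).symm p.2)
  left_inv := by rintro ⟨d, x⟩; simp
  right_inv := by rintro ⟨d, x⟩; simp

theorem walk_pow (bar σ : Equiv.Perm D) (g : D → Equiv.Perm X) (n : ℕ) (d : D) (x : X) :
    ((cross bar * glue σ g : Equiv.Perm (D × X)) ^ n) (d, x) = ((step bar σ)^[n] d, hol bar σ g n d x) := by
  induction n with
  | zero => rfl
  | succ n ih =>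
      rw [pow_succ', Equiv.Perm.mul_apply, ih, Function.iterate_succ_apply']
      rfl

theorem hol_add (bar σ : Equiv.Perm D) (g : D → Equiv.Perm X) (n m : ℕ) (d : D) :
    hol bar σ g (n + m) d = hol bar σ g n ((step bar σ)^[m] d) * hol bar σ g m d := by
  induction n with
  | zero => simp [hol]
  | succ n ih =>
      rw [Nat.add_right_comm]
      change g ((step bar σ)^[n + m] d) * hol bar σ g (n + m) d = _
      rw [ih, Function.iterate_add_apply, ← mul_assoc]
      rfl

theorem hol_mul (bar σ : Equiv.Perm D) (g : D → Equiv.Perm X) (n : ℕ) {d : D}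
    (hd : (step bar σ)^[n] d = d) (k : ℕ) :
    hol bar σ g (n * k) d = hol bar σ g n d ^ k := by
  induction k with
  | zero => simp [hol]
  | succ k ih =>
      have e : (step bar σ)^[n] d = d := hd
      rw [Nat.mul_succ, add_comm, hol_add]
      have e2 : (step bar σ)^[n * k] d = d := by
        rw [Function.iterate_mul]
        exact Function.iterate_fixed (f := (step bar σ)^[n]) hd k
      rw [e2, ih, pow_succ']

/-- **The classes of a chain are finite** if the holonomy of every closed walk has finite order.
-/
theorem walk_finite [Finite D] (bar σ : Equiv.Perm D) (hbar : bar * bar = 1) (hσ : σ * σ = 1)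
    (g : D → Equiv.Perm X) (hg : ∀ d, g (σ d) = (g d)⁻¹)
    (H : ∀ d n, 0 < n → (step bar σ)^[n] d = d → ∃ k : ℕ, 0 < k ∧ hol bar σ g n d ^ k = 1) :
    Finite (Subgroup.closure {cross bar, glue σ g} : Subgroup (Equiv.Perm (D × X))) := by
  classical
  have _ := Fintype.ofFinite D
  have hB : (cross bar : Equiv.Perm (D × X)) * cross bar = 1 := by
    refine Equiv.ext ?_
    rintro ⟨d, x⟩
    have h1 : bar (bar d) = d := by
      have := congrArg (fun f : Equiv.Perm D => f d) hbar
      simpa using this
    simp [cross, h1]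
  have hS : (glue σ g : Equiv.Perm (D × X)) * glue σ g = 1 := by
    refine Equiv.ext ?_
    rintro ⟨d, x⟩
    have h1 : σ (σ d) = d := by
      have := congrArg (fun f : Equiv.Perm D => f d) hσ
      simpa using this
    simp [glue, h1, hg]
  -- the walk on the darts has finite order
  set τ : Equiv.Perm D := bar * σ with hτ
  have hτs : ∀ n d, (step bar σ)^[n] d = (τ ^ n) d := by
    intro n
    induction n with
    | zero => intro d; rfl
    | succ n ih =>
        intro d
        rw [Function.iterate_succ_apply', ih, pow_succ', Equiv.Perm.mul_apply]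
        rfl
  set N := orderOf τ with hN
  have hNpos : 0 < N := orderOf_pos τ
  have hNd : ∀ d, (step bar σ)^[N] d = d := by
    intro d
    rw [hτs, hN, pow_orderOf_eq_one]
    rfl
  choose k hk hk' using fun d => H d N hNpos (hNd d)
  refine dihedral_finite (cross bar) (glue σ g) hB hS (m := N * ∏ d, k d)
    (Nat.mul_pos hNpos (Finset.prod_pos fun d _ => hk d)) ?_
  refine Equiv.ext ?_
  rintro ⟨d, x⟩
  rw [walk_pow]
  have e1 : (step bar σ)^[N * ∏ d, k d] d = d := by
    rw [Function.iterate_mul]
    exact Function.iterate_fixed (f := (step bar σ)^[N]) (hNd d) _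
  have e2 : hol bar σ g (N * ∏ d, k d) d = 1 := by
    rw [hol_mul bar σ g N (hNd d)]
    obtain ⟨c, hc⟩ := Finset.dvd_prod_of_mem k (Finset.mem_univ d)
    rw [hc, pow_mul, hk' d, one_pow]
  rw [e1, e2]
  rfl

/-! ## The two kinds of holonomy -/

/-- Holonomies of affine maps which preserve finite sets with at least two points (the critical
values of rational elliptic surfaces besides the polar fibre, which is at infinity). -/
theorem walk_finite_of_affine {K : Type*} [Field K] [Finite D] (bar σ : Equiv.Perm D)
    (hbar : bar * bar = 1) (hσ : σ * σ = 1) (g : D → Equiv.Perm K)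
    (hg : ∀ d, g (σ d) = (g d)⁻¹) (a b : D → K) (ha : ∀ d, a d ≠ 0)
    (hab : ∀ d z, g d z = a d * z + b d) (S : D → Finset K) (hS : ∀ d, 2 ≤ (S d).card)
    (hbarS : ∀ d, S (bar d) = S d) (hgS : ∀ d, ∀ z ∈ S d, g d z ∈ S (σ d)) :
    Finite (Subgroup.closure {cross bar, glue σ g} : Subgroup (Equiv.Perm (D × K))) := by
  refine walk_finite bar σ hbar hσ g hg ?_
  intro d n hn hd
  have haff : ∀ n d, ∃ a' b' : K, a' ≠ 0 ∧ ∀ z, hol bar σ g n d z = a' * z + b' := by
    intro n d
    induction n with
    | zero => exact ⟨1, 0, one_ne_zero, fun z => by simp [hol]⟩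
    | succ n ih =>
        obtain ⟨a', b', ha', h'⟩ := ih
        refine ⟨a ((step bar σ)^[n] d) * a', a ((step bar σ)^[n] d) * b' +
          b ((step bar σ)^[n] d), mul_ne_zero (ha _) ha', fun z => ?_⟩
        change g _ (hol bar σ g n d z) = _
        rw [h', hab]
        ring
  have hmem : ∀ n d, ∀ z ∈ S d, hol bar σ g n d z ∈ S ((step bar σ)^[n] d) := by
    intro n d
    induction n with
    | zero => intro z hz; exact hz
    | succ n ih =>
        intro z hz
        rw [Function.iterate_succ_apply']
        change g _ (hol bar σ g n d z) ∈ S (bar (σ _))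
        rw [hbarS]
        exact hgS _ _ (ih z hz)
  obtain ⟨a', b', ha', h'⟩ := haff n d
  obtain ⟨k, hk, hk'⟩ := affine_pow_eq_id (S d) (hS d)
  refine ⟨k, hk, Equiv.ext fun z => ?_⟩
  have e1 : (fun z : K => a' * z + b')^[k] = id := by
    refine hk' a' b' ?_ ha'
    intro z hz
    rw [← h' z]
    have := hmem n d z hz
    rwa [hd] at this
  have e2 : ∀ m : ℕ, ∀ z, ((hol bar σ g n d) ^ m) z = (fun z : K => a' * z + b')^[m] z := by
    intro m
    induction m with
    | zero => intro z; rfl
    | succ m ih =>
        intro z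
        rw [pow_succ', Equiv.Perm.mul_apply, ih, Function.iterate_succ_apply', h']
  rw [e2, e1]
  rfl

/-- The sign of a monomial map `z ↦ c z` (`false`) or `z ↦ c / z` (`true`). -/
def mono {K : Type*} [Field K] (c : Kˣ) : Bool → Equiv.Perm Kˣ
  | false => Equiv.mulLeft c
  | true => (Equiv.inv Kˣ).trans (Equiv.mulLeft c)

theorem mono_true_sq {K : Type*} [Field K] (c : Kˣ) : mono c true * mono c true = 1 := by
  refine Equiv.ext fun z => ?_
  simp [mono]

theorem mono_mul {K : Type*} [Field K] (c c' : Kˣ) (s s' : Bool) :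
    mono c s * mono c' s' = mono (if s then c * c'⁻¹ else c * c') (s ^^ s') := by
  refine Equiv.ext fun z => ?_
  cases s <;> cases s' <;> simp [mono, mul_comm]

/-- Holonomies of monomial maps `z ↦ c z` and `z ↦ c / z` of the multiplicative group (double
surfaces over an elliptic curve, the poles are at `0` and `∞`): the second kind are involutions,
so only the multipliers of the first kind have to be roots of unity. -/
theorem walk_finite_of_mono {K : Type*} [Field K] [Finite D] (bar σ : Equiv.Perm D)
    (hbar : bar * bar = 1) (hσ : σ * σ = 1) (g : D → Equiv.Perm Kˣ)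
    (hg : ∀ d, g (σ d) = (g d)⁻¹) (c : D → Kˣ) (s : D → Bool)
    (hgc : ∀ d, g d = mono (c d) (s d))
    (H : ∀ d n, 0 < n → (step bar σ)^[n] d = d → ∀ lam : Kˣ,
      hol bar σ g n d = mono lam false → ∃ k : ℕ, 0 < k ∧ lam ^ k = 1) :
    Finite (Subgroup.closure {cross bar, glue σ g} : Subgroup (Equiv.Perm (D × Kˣ))) := by
  refine walk_finite bar σ hbar hσ g hg ?_
  intro d n hn hd
  have hmono : ∀ n d, ∃ (lam : Kˣ) (t : Bool), hol bar σ g n d = mono lam t := by
    intro n d
    induction n with
    | zero =>
        refine ⟨1, false, Equiv.ext fun z => ?_⟩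
        simp [hol, mono]
    | succ n ih =>
        obtain ⟨lam, t, h⟩ := ih
        refine ⟨if s ((step bar σ)^[n] d) then c ((step bar σ)^[n] d) * lam⁻¹
            else c ((step bar σ)^[n] d) * lam, s ((step bar σ)^[n] d) ^^ t, ?_⟩
        change g _ * hol bar σ g n d = _
        rw [h, hgc, mono_mul]
  obtain ⟨lam, t, h⟩ := hmono n d
  cases t with
  | false =>
      obtain ⟨k, hk, hk'⟩ := H d n hn hd lam h
      refine ⟨k, hk, ?_⟩
      rw [h]
      have e : ∀ m : ℕ, (mono lam false : Equiv.Perm Kˣ) ^ m = mono (lam ^ m) false := by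
        intro m
        induction m with
        | zero => refine Equiv.ext fun z => ?_; simp [mono]
        | succ m ih =>
            rw [pow_succ', ih, mono_mul]
            simp [pow_succ']
      rw [e, hk']
      refine Equiv.ext fun z => ?_
      simp [mono]
  | true =>
      refine ⟨2, two_pos, ?_⟩
      rw [h, pow_two, mono_true_sq]

end Pool.Agent.H11.MN
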