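import Mathlib

/-!
# A split extension of Hodge structures has rational trace

`H = H^1(E)` of an elliptic curve, `w` a generator of `H^{1,0}`.  An extension class in
`Ext^1(H(-1), H)` which is a multiple `δ • 1` of the identity is zero up to isogeny if
`δ • 1 = R + F` with `R` a rational matrix and `F` in `F^0 Hom(H(-1), H)`, that is `F w = 0` and
the image of `F` is spanned by `w`.  Then `δ` is rational (the trace of `F` is zero), and
`exp (2 π i δ)` is a root of unity.
-/

namespace Pool.Agent.H11.MN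

open Matrix

/-- A matrix with image in the line of `w` which kills `w` has trace zero. -/
theorem trace_eq_zero_of_line {n : ℕ} {w : Fin n → ℂ} (hw : w ≠ 0)
    {F : Matrix (Fin n) (Fin n) ℂ} (h0 : F.mulVec w = 0)
    (him : ∀ v, ∃ c : ℂ, F.mulVec v = c • w) : F.trace = 0 := by
  choose c hc using him
  have hF : ∀ i j, F i j = c (Pi.single j 1) * w i := by
    intro i j
    have h := congrFun (hc (Pi.single j 1)) i
    rw [Matrix.mulVec_single_one] at h
    simpa [Matrix.col_apply] using h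
  obtain ⟨i0, hi0⟩ : ∃ i, w i ≠ 0 := by
    by_contra h
    push Not at h
    exact hw (funext h)
  have h1 : w i0 * ∑ j, c (Pi.single j 1) * w j = 0 := by
    have h := congrFun h0 i0
    simp only [Matrix.mulVec, dotProduct, Pi.zero_apply] at h
    rw [Finset.mul_sum, ← h]
    refine Finset.sum_congr rfl fun j _ => ?_
    rw [hF i0 j]; ring
  have h2 : ∑ j, c (Pi.single j 1) * w j = 0 := by
    rcases mul_eq_zero.mp h1 with h | h
    · exact absurd h hi0
    · exact h
  rw [Matrix.trace, ← h2]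
  exact Finset.sum_congr rfl fun j _ => by rw [Matrix.diag_apply, hF j j]

/-- **Trace of a split extension.**  If the multiple `δ • 1` of the identity is the sum of a
rational matrix and an element of `F^0`, then `δ` is rational. -/
theorem rational_of_split {n : ℕ} (hn : 0 < n) {w : Fin n → ℂ} (hw : w ≠ 0)
    {F : Matrix (Fin n) (Fin n) ℂ} (h0 : F.mulVec w = 0)
    (him : ∀ v, ∃ c : ℂ, F.mulVec v = c • w) {R : Matrix (Fin n) (Fin n) ℚ} {δ : ℂ}
    (h : δ • (1 : Matrix (Fin n) (Fin n) ℂ) = R.map (fun q : ℚ => (q : ℂ)) + F) :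
    ∃ q : ℚ, δ = q := by
  have ht := congrArg Matrix.trace h
  rw [Matrix.trace_smul, Matrix.trace_one, Matrix.trace_add, trace_eq_zero_of_line hw h0 him,
    add_zero, smul_eq_mul, Fintype.card_fin] at ht
  have hR : (R.map (fun q : ℚ => (q : ℂ))).trace = ((R.trace : ℚ) : ℂ) := by
    simp [Matrix.trace]
  rw [hR] at ht
  have hn' : (n : ℂ) ≠ 0 := by exact_mod_cast hn.ne'
  refine ⟨R.trace / n, ?_⟩
  push_cast
  rw [eq_div_iff hn', ht]

/-- The exponential of a rational multiple of `2 π i` is a root of unity. -/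
theorem root_of_rational {c δ : ℂ} (hc : c = Complex.exp (2 * Real.pi * Complex.I * δ))
    (hδ : ∃ q : ℚ, δ = q) : ∃ k : ℕ, 0 < k ∧ c ^ k = 1 := by
  obtain ⟨q, hq⟩ := hδ
  refine ⟨q.den, q.den_pos, ?_⟩
  rw [hc, hq, ← Complex.exp_nat_mul]
  have h : ((q.den : ℕ) : ℂ) * (2 * Real.pi * Complex.I * (q : ℂ)) =
      (q.num : ℂ) * (2 * Real.pi * Complex.I) := by
    have h1 : (q : ℂ) * (q.den : ℂ) = (q.num : ℂ) := by
      exact_mod_cast congrArg (fun x : ℚ => (x : ℂ)) (Rat.mul_den_eq_num q)
    calc ((q.den : ℕ) : ℂ) * (2 * Real.pi * Complex.I * (q : ℂ))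
        = ((q : ℂ) * (q.den : ℂ)) * (2 * Real.pi * Complex.I) := by ring
      _ = _ := by rw [h1]
  rw [h]
  exact Complex.exp_int_mul_two_pi_mul_I q.num

/-- The two together: the holonomy `c = exp (2 π i δ)` of a split extension is a root of unity. -/
theorem root_of_split {n : ℕ} (hn : 0 < n) {w : Fin n → ℂ} (hw : w ≠ 0)
    {F : Matrix (Fin n) (Fin n) ℂ} (h0 : F.mulVec w = 0)
    (him : ∀ v, ∃ c : ℂ, F.mulVec v = c • w) {R : Matrix (Fin n) (Fin n) ℚ} {c δ : ℂ}
    (h : δ • (1 : Matrix (Fin n) (Fin n) ℂ) = R.map (fun q : ℚ => (q : ℂ)) + F)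
    (hc : c = Complex.exp (2 * Real.pi * Complex.I * δ)) : ∃ k : ℕ, 0 < k ∧ c ^ k = 1 :=
  root_of_rational hc (rational_of_split hn hw h0 him h)

end Pool.Agent.H11.MN
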