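import Pool.Agent.H11.MN.Dihedral
import Pool.Agent.H11.MN.Split

/-!
# Gluing: the classes are finite

* `exists_swap`: at every vertex at most two active darts: the involution `σ` exists.
* `walk_finite_of_hodge`: chains of double surfaces over an elliptic curve; the multiplier of a
  closed walk is (up to a power) the holonomy of a line bundle, so it is a root of unity by the
  splitting of `H^3`.
* `classes_finite_of_torsion`: the case `N . E_p > 0`: all gluing maps preserve the class of a
  line bundle of positive degree on the elliptic curve.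
* `eq_of_connected`: a function which is constant along the edges of a connected graph.
-/

namespace Pool.Agent.H11.MN

/-- If every vertex has at most two darts, there is an involution of the darts which preserves
the vertex and moves a dart exactly if its vertex has another dart. -/
theorem exists_swap {D J : Type*} (vert : D → J)
    (h : ∀ d a b, vert a = vert d → vert b = vert d → a ≠ d → b ≠ d → a = b) :
    ∃ σ : Equiv.Perm D, σ * σ = 1 ∧ (∀ d, vert (σ d) = vert d) ∧
      (∀ d a, vert a = vert d → a ≠ d → σ d = a) ∧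
      (∀ d, (∀ a, vert a = vert d → a = d) → σ d = d) := by
  classical
  let f : D → D := fun d => if hd : ∃ a, vert a = vert d ∧ a ≠ d then hd.choose else d
  have f1 : ∀ d a, vert a = vert d → a ≠ d → f d = a := by
    intro d a ha hne
    have hd : ∃ a, vert a = vert d ∧ a ≠ d := ⟨a, ha, hne⟩
    have e : f d = hd.choose := dif_pos hd
    rw [e]
    exact h d _ a hd.choose_spec.1 ha hd.choose_spec.2 hne
  have f2 : ∀ d, (∀ a, vert a = vert d → a = d) → f d = d := by
    intro d hd
    have hn : ¬ ∃ a, vert a = vert d ∧ a ≠ d := by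
      rintro ⟨a, ha, hne⟩
      exact hne (hd a ha)
    exact dif_neg hn
  have f3 : ∀ d, f (f d) = d := by
    intro d
    by_cases hd : ∃ a, vert a = vert d ∧ a ≠ d
    · obtain ⟨a, ha, hne⟩ := hd
      rw [f1 d a ha hne]
      exact f1 a d ha.symm (Ne.symm hne)
    · push Not at hd
      rw [f2 d hd, f2 d hd]
  have f4 : ∀ d, vert (f d) = vert d := by
    intro d
    by_cases hd : ∃ a, vert a = vert d ∧ a ≠ d
    · obtain ⟨a, ha, hne⟩ := hd
      rw [f1 d a ha hne, ha]
    · push Not at hd
      rw [f2 d hd]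
  refine ⟨⟨f, f, f3, f3⟩, ?_, f4, f1, f2⟩
  refine Equiv.ext fun d => ?_
  exact f3 d

/-- A function with equal values at the ends of every edge is constant on a connected graph. -/
theorem eq_of_connected {V R : Type*} (adj : V → V → Prop)
    (hconn : ∀ v w, Relation.EqvGen adj v w) (r : V → R) (h : ∀ v w, adj v w → r v = r w)
    (v w : V) : r v = r w := by
  induction hconn v w with
  | rel a b hab => exact h a b hab
  | refl a => rfl
  | symm a b _ ih => exact ih.symm
  | trans a b c _ _ ih1 ih2 => exact ih1.trans ih2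

/-- **Chains over an elliptic curve.**  The base curves of the double surfaces of a chain are
`P^1` with the two poles `0` and `∞`, the gluing maps are monomial.  If for every closed walk
whose holonomy is `z ↦ lam z` a positive power of `lam` is `exp (2 π i δ)`, where `δ • 1` is the
sum of a rational matrix and an element of `F^0` of `Hom (H^1(E)(-1), H^1(E))`, then the group
of the gluing is finite. -/
theorem walk_finite_of_hodge {D : Type*} [Finite D] (bar σ : Equiv.Perm D)
    (hbar : bar * bar = 1) (hσ : σ * σ = 1) (g : D → Equiv.Perm ℂˣ)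
    (hg : ∀ d, g (σ d) = (g d)⁻¹) (c : D → ℂˣ) (s : D → Bool)
    (hgc : ∀ d, g d = mono (c d) (s d)) (w : Fin 2 → ℂ) (hw : w ≠ 0)
    (H : ∀ d n, 0 < n → (step bar σ)^[n] d = d → ∀ lam : ℂˣ,
      hol bar σ g n d = mono lam false → ∃ (m : ℕ) (δ : ℂ) (R : Matrix (Fin 2) (Fin 2) ℚ)
        (F : Matrix (Fin 2) (Fin 2) ℂ), 0 < m ∧
        (lam : ℂ) ^ m = Complex.exp (2 * Real.pi * Complex.I * δ) ∧
        δ • (1 : Matrix (Fin 2) (Fin 2) ℂ) = R.map (fun q : ℚ => (q : ℂ)) + F ∧
        F.mulVec w = 0 ∧ ∀ v, ∃ a : ℂ, F.mulVec v = a • w) :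
    Finite (Subgroup.closure {cross bar, glue σ g} : Subgroup (Equiv.Perm (D × ℂˣ))) := by
  refine walk_finite_of_mono bar σ hbar hσ g hg c s hgc ?_
  intro d n hn hd lam hlam
  obtain ⟨m, δ, R, F, hm, he, hs, h0, him⟩ := H d n hn hd lam hlam
  obtain ⟨k, hk, hk'⟩ := root_of_split (by norm_num : 0 < 2) hw h0 him hs he
  refine ⟨m * k, Nat.mul_pos hm hk, Units.ext ?_⟩
  push_cast
  rw [pow_mul, hk']

/-! ## Classes on a finite union of copies of one set -/

/-- Finitely many sheets `P`, all identified with one set `X`, glued by maps in a finite group: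
the classes are finite. -/
theorem classes_finite {P X : Type*} [Finite P] (G : Subgroup (Equiv.Perm X)) [Finite G]
    (rel : P × X → P × X → Prop) (h : ∀ a b, rel a b → ∃ f ∈ G, b.2 = f a.2) (a : P × X) :
    {b | Relation.EqvGen rel a b}.Finite := by
  have key : ∀ a b, Relation.EqvGen rel a b → ∃ f ∈ G, b.2 = f a.2 := by
    intro a b hab
    induction hab with
    | rel a b hab => exact h a b hab
    | refl a => exact ⟨1, G.one_mem, rfl⟩
    | symm a b _ ih =>
        obtain ⟨f, hf, hb⟩ := ih
        exact ⟨f⁻¹, G.inv_mem hf, by rw [hb]; simp⟩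
    | trans a b c _ _ ih1 ih2 =>
        obtain ⟨f, hf, hb⟩ := ih1
        obtain ⟨f', hf', hb'⟩ := ih2
        exact ⟨f' * f, G.mul_mem hf' hf, by rw [hb', hb]; rfl⟩
  have hsub : {b | Relation.EqvGen rel a b} ⊆
      Set.range (fun q : P × G => ((q.1, (q.2 : Equiv.Perm X) a.2) : P × X)) := by
    rintro ⟨p, x⟩ hb
    obtain ⟨f, hf, hx⟩ := key a _ hb
    exact ⟨(p, ⟨f, hf⟩), Prod.ext rfl hx.symm⟩
  exact Set.Finite.subset (Set.finite_range _) hsub

/-- A point `t` such that `r t` is torsion, `r > 0`, is torsion. -/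
theorem torsion_of_nsmul {A : Type*} [AddCommGroup A] {r : ℕ} (hr : 0 < r) {t : A}
    (h : ∃ k : ℕ, 0 < k ∧ k • (r • t) = 0) : ∃ k : ℕ, 0 < k ∧ k • t = 0 := by
  obtain ⟨k, hk, h⟩ := h
  exact ⟨r * k, Nat.mul_pos hr hk, by rw [mul_nsmul, h]⟩

/-- **The case of positive degree.**  Finitely many sheets, each identified with the elliptic
curve `A` such that the line bundle becomes `r [0]` up to torsion; the gluing maps are
`x ↦ h x + t` with `h` in the finite group `H` of automorphisms, and they preserve the class of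
the bundle up to torsion, so `r t` is torsion.  Then the classes are finite. -/
theorem classes_finite_of_torsion {A P : Type*} [AddCommGroup A] [Finite P]
    (H : Set (A ≃+ A)) (hH : H.Finite) (H1 : AddEquiv.refl A ∈ H)
    (Hmul : ∀ k ∈ H, ∀ l ∈ H, l.trans k ∈ H) (Hinv : ∀ k ∈ H, k.symm ∈ H) {r : ℕ} (hr : 0 < r)
    {ι : Type*} [Finite ι] (h : ι → A ≃+ A) (hh : ∀ i, h i ∈ H) (t : ι → A)
    (ht : ∀ i, ∃ k : ℕ, 0 < k ∧ k • (r • t i) = 0)
    (rel : P × A → P × A → Prop) (hrel : ∀ a b, rel a b → ∃ i, b.2 = h i a.2 + t i)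
    (a : P × A) : {b | Relation.EqvGen rel a b}.Finite := by
  let g : ι → Equiv.Perm A := fun i => (h i).toEquiv.trans (Equiv.addRight (t i))
  have hfin := finite_of_torsion H hH H1 Hmul Hinv h hh t (fun i => torsion_of_nsmul hr (ht i)) g
    (fun i x => rfl)
  refine classes_finite (Subgroup.closure (Set.range g)) rel ?_ a
  intro a b hab
  obtain ⟨i, hi⟩ := hrel a b hab
  exact ⟨g i, Subgroup.subset_closure ⟨i, rfl⟩, hi⟩

end Pool.Agent.H11.MN
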