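import Mathlib

/-!
# Finite groups of automorphisms of the base curves

* `Mon`: the maps `z ↦ c z` and `z ↦ c / z` of the multiplicative group.  If all the multipliers
  of the first kind, and all the quotients of the multipliers of the second kind, are roots of
  unity, there is one invariant function `z ^ d` or `z ^ d + a / z ^ d`, `d > 0`.
* affine maps of the line which permute a finite set with at least two points: a uniform power is
  the identity.
* maps `x ↦ h x + t` of an abelian group, `h` in a finite group and `t` torsion, finitely many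
  generators: the group is finite.
-/

namespace Pool.Agent.H11.MN

/-! ## The multiplicative group -/

/-- Roots of unity: a common exponent for finitely many elements. -/
theorem exists_common_exponent {K : Type*} [CommMonoid K] {ι : Type*} (s : Finset ι) (f : ι → K)
    (h : ∀ i ∈ s, ∃ k : ℕ, 0 < k ∧ f i ^ k = 1) : ∃ d : ℕ, 0 < d ∧ ∀ i ∈ s, f i ^ d = 1 := by
  classical
  induction s using Finset.induction_on with
  | empty => exact ⟨1, one_pos, by simp⟩
  | insert a s ha ih =>
      obtain ⟨d, hd, hd'⟩ := ih fun i hi => h i (Finset.mem_insert_of_mem hi)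
      obtain ⟨k, hk, hk'⟩ := h a (Finset.mem_insert_self a s)
      refine ⟨d * k, Nat.mul_pos hd hk, fun i hi => ?_⟩
      rcases Finset.mem_insert.mp hi with rfl | hi
      · rw [mul_comm, pow_mul, hk', one_pow]
      · rw [pow_mul, hd' i hi, one_pow]

/-- **Invariant function of a group of monomial maps.**  `ι` indexes the generators; `e i = true`
means `z ↦ c i * z`, `e i = false` means `z ↦ c i / z`.  If the `c i` with `e i = true` and the
quotients `c i / c j` with `e i = e j = false` are roots of unity, there are `d > 0` and `a ≠ 0`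
such that `z ^ d + a / z ^ d` is invariant under the maps of the second kind and
`z ^ d` and `a / z ^ d` under the maps of the first kind. -/
theorem exists_invariant {K : Type*} [Field K] {ι : Type*} [Finite ι] (c : ι → K)
    (e : ι → Bool) (hc : ∀ i, c i ≠ 0)
    (h1 : ∀ i, e i = true → ∃ k : ℕ, 0 < k ∧ c i ^ k = 1)
    (h2 : ∀ i j, e i = false → e j = false → ∃ k : ℕ, 0 < k ∧ (c i / c j) ^ k = 1) :
    ∃ (d : ℕ) (a : K), 0 < d ∧ a ≠ 0 ∧
      (∀ i, e i = true → ∀ z : K, (c i * z) ^ d = z ^ d) ∧
      (∀ i, e i = false → ∀ z : K, z ≠ 0 →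
        (c i / z) ^ d = a / z ^ d ∧ a / (c i / z) ^ d = z ^ d) := by
  classical
  have _ := Fintype.ofFinite ι
  obtain ⟨d1, hd1, hd1'⟩ := exists_common_exponent
    (Finset.univ.filter fun i => e i = true) c (by
      intro i hi
      exact h1 i (Finset.mem_filter.mp hi).2)
  obtain ⟨d2, hd2, hd2'⟩ := exists_common_exponent
    ((Finset.univ : Finset (ι × ι)).filter fun p => e p.1 = false ∧ e p.2 = false)
    (fun p => c p.1 / c p.2) (by
      intro p hp
      have hp' := (Finset.mem_filter.mp hp).2
      exact h2 p.1 p.2 hp'.1 hp'.2)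
  by_cases hex : ∃ j, e j = false
  · obtain ⟨j, hj⟩ := hex
    refine ⟨d1 * d2, c j ^ (d1 * d2), Nat.mul_pos hd1 hd2, pow_ne_zero _ (hc j), ?_, ?_⟩
    · intro i hi z
      rw [mul_pow, pow_mul, hd1' i (by simp [hi]), one_pow, one_mul]
    · intro i hi z hz
      have h3 : (c i / c j) ^ (d1 * d2) = 1 := by
        rw [mul_comm, pow_mul, hd2' (i, j) (by simp [hi, hj]), one_pow]
      have h4 : c i ^ (d1 * d2) = c j ^ (d1 * d2) := by
        rw [div_pow, div_eq_one_iff_eq (pow_ne_zero _ (hc j))] at h3
        exact h3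
      have hzd : z ^ (d1 * d2) ≠ 0 := pow_ne_zero _ hz
      have hcd : c j ^ (d1 * d2) ≠ 0 := pow_ne_zero _ (hc j)
      constructor
      · rw [div_pow, h4]
      · rw [div_pow, h4]
        field_simp
  · push Not at hex
    refine ⟨d1, 1, hd1, one_ne_zero, ?_, ?_⟩
    · intro i hi z
      rw [mul_pow, hd1' i (by simp [hi]), one_mul]
    · intro i hi
      exact absurd hi (hex i)

/-! ## Affine maps of the line -/

/-- An affine map `z ↦ a z + b` which permutes a finite set with at least two points: `a` is a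
root of unity whose order divides a number which depends on the set only, and the iterate with
this number is the identity. -/
theorem affine_pow_eq_id {K : Type*} [Field K] (S : Finset K) (hS : 2 ≤ S.card) :
    ∃ k : ℕ, 0 < k ∧ ∀ a b : K, (∀ z ∈ S, a * z + b ∈ S) → a ≠ 0 →
      (fun z : K => a * z + b)^[k] = id := by
  classical
  refine ⟨S.card.factorial, Nat.factorial_pos _, fun a b h ha => ?_⟩
  have hinj : Function.Injective (fun z : K => a * z + b) := by
    intro x y hxy
    exact mul_left_cancel₀ ha (add_right_cancel hxy)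
  let σ : S → S := fun z => ⟨a * z + b, h z z.2⟩
  have hσ : Function.Injective σ := by
    intro x y hxy
    have := congrArg Subtype.val hxy
    exact Subtype.ext (hinj this)
  let τ : Equiv.Perm S := Equiv.ofBijective σ (Finite.injective_iff_bijective.mp hσ)
  have hτ : τ ^ S.card.factorial = 1 := by
    have h1 : Fintype.card (Equiv.Perm S) = S.card.factorial := by
      rw [Fintype.card_perm, Fintype.card_coe]
    rw [← h1]
    exact pow_card_eq_one
  have hit : ∀ (m : ℕ) (z : S), (((τ ^ m) z : S) : K) = (fun z : K => a * z + b)^[m] z := by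
    intro m
    induction m with
    | zero => intro z; simp
    | succ m ih =>
        intro z
        rw [pow_succ', Equiv.Perm.mul_apply, Function.iterate_succ_apply', ← ih z]
        rfl
  have hfix : ∀ z ∈ S, (fun z : K => a * z + b)^[S.card.factorial] z = z := by
    intro z hz
    rw [← hit _ ⟨z, hz⟩, hτ]
    rfl
  have haff : ∀ m : ℕ, ∃ a' b' : K, ∀ z, (fun z : K => a * z + b)^[m] z = a' * z + b' := by
    intro m
    induction m with
    | zero => exact ⟨1, 0, fun z => by simp⟩
    | succ m ih =>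
        obtain ⟨a', b', h'⟩ := ih
        refine ⟨a * a', a * b' + b, fun z => ?_⟩
        rw [Function.iterate_succ_apply', h' z]
        ring
  obtain ⟨a', b', hab⟩ := haff S.card.factorial
  obtain ⟨x, hx, y, hy, hxy⟩ := Finset.one_lt_card.mp (by omega : 1 < S.card)
  have e1 : a' * x + b' = x := by rw [← hab x]; exact hfix x hx
  have e2 : a' * y + b' = y := by rw [← hab y]; exact hfix y hy
  have e3 : (a' - 1) * (x - y) = 0 := by linear_combination e1 - e2
  have e4 : a' = 1 := by
    rcases mul_eq_zero.mp e3 with h' | h'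
    · exact sub_eq_zero.mp h'
    · exact absurd (sub_eq_zero.mp h') hxy
  have e5 : b' = 0 := by rw [e4] at e1; linear_combination e1
  funext z
  rw [hab z, e4, e5]
  simp

/-- The group of the affine maps which permute a finite set with at least two points is finite.
-/
theorem affine_finite {K : Type*} [Field K] (S : Finset K) (hS : 2 ≤ S.card) :
    {p : K × K | p.1 ≠ 0 ∧ ∀ z ∈ S, p.1 * z + p.2 ∈ S}.Finite := by
  classical
  obtain ⟨x, hx, y, hy, hxy⟩ := Finset.one_lt_card.mp (by omega : 1 < S.card)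
  have hinj : Set.InjOn (fun p : K × K => (p.1 * x + p.2, p.1 * y + p.2))
      {p : K × K | p.1 ≠ 0 ∧ ∀ z ∈ S, p.1 * z + p.2 ∈ S} := by
    rintro ⟨a, b⟩ _ ⟨a', b'⟩ _ h
    simp only [Prod.mk.injEq] at h
    have e1 : (a - a') * (x - y) = 0 := by linear_combination h.1 - h.2
    have e2 : a = a' := by
      rcases mul_eq_zero.mp e1 with h' | h'
      · exact sub_eq_zero.mp h'
      · exact absurd (sub_eq_zero.mp h') hxy
    subst e2
    have e3 : b = b' := by linear_combination h.1
    rw [e3]
  refine Set.Finite.of_finite_image (Set.Finite.subset (S ×ˢ S).finite_toSet ?_) hinj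
  rintro _ ⟨p, hp, rfl⟩
  simp only [Finset.coe_product, Set.mem_prod, Finset.mem_coe]
  exact ⟨hp.2 x hx, hp.2 y hy⟩

/-! ## Abelian groups -/

/-- A finitely generated torsion subgroup of an abelian group is finite. -/
theorem closure_finite {A : Type*} [AddCommGroup A] (s : Set A) (hs : s.Finite)
    (ht : ∀ x ∈ s, ∃ k : ℕ, 0 < k ∧ k • x = 0) : (AddSubgroup.closure s : Set A).Finite := by
  classical
  have : AddGroup.FG (AddSubgroup.closure s) := by
    rw [AddGroup.fg_iff_addSubgroup_fg]
    exact ⟨hs.toFinset, by simp⟩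
  have htor : IsAddTorsion (AddSubgroup.closure s) := by
    rintro ⟨x, hx⟩
    rw [isOfFinAddOrder_iff_nsmul_eq_zero]
    refine AddSubgroup.closure_induction (p := fun x hx => ∃ n : ℕ, 0 < n ∧
      n • (⟨x, hx⟩ : AddSubgroup.closure s) = 0) ?_ ?_ ?_ ?_ hx
    · intro y hy
      obtain ⟨k, hk, hk'⟩ := ht y hy
      exact ⟨k, hk, Subtype.ext (by simpa using hk')⟩
    · exact ⟨1, one_pos, by simp⟩
    · rintro y z hy hz ⟨k, hk, hk'⟩ ⟨l, hl, hl'⟩
      refine ⟨k * l, Nat.mul_pos hk hl, ?_⟩
      have e : (⟨y + z, AddSubgroup.add_mem _ hy hz⟩ : AddSubgroup.closure s) =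
          ⟨y, hy⟩ + ⟨z, hz⟩ := rfl
      rw [e, nsmul_add, mul_nsmul, hk', mul_comm, mul_nsmul, hl']
      simp
    · rintro y hy ⟨k, hk, hk'⟩
      refine ⟨k, hk, ?_⟩
      have e : (⟨-y, AddSubgroup.neg_mem _ hy⟩ : AddSubgroup.closure s) = -⟨y, hy⟩ := rfl
      rw [e, smul_neg, hk', neg_zero]
  have : Finite (AddSubgroup.closure s) := AddCommGroup.finite_of_fg_isAddTorsion _ htor
  exact Set.toFinite _

/-- **Finite groups on an elliptic curve.**  Finitely many maps `x ↦ h x + t` of an abelian group,
`h` in a finite group `H` of automorphisms and `t` torsion, generate a finite group. -/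
theorem finite_of_torsion {A : Type*} [AddCommGroup A] (H : Set (A ≃+ A)) (hH : H.Finite)
    (H1 : AddEquiv.refl A ∈ H) (Hmul : ∀ k ∈ H, ∀ l ∈ H, l.trans k ∈ H)
    (Hinv : ∀ k ∈ H, k.symm ∈ H)
    {ι : Type*} [Finite ι] (h : ι → A ≃+ A) (hh : ∀ i, h i ∈ H) (t : ι → A)
    (ht : ∀ i, ∃ k : ℕ, 0 < k ∧ k • t i = 0) (g : ι → Equiv.Perm A)
    (hg : ∀ i x, g i x = h i x + t i) : Finite (Subgroup.closure (Set.range g)) := by
  classical
  have : Finite H := hH.to_subtype
  set s : Set A := {x | ∃ (k : A ≃+ A) (i : ι), k ∈ H ∧ x = k (t i)} with hs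
  have hsf : s.Finite := by
    have : s ⊆ Set.range (fun p : H × ι => (p.1 : A ≃+ A) (t p.2)) := by
      rintro x ⟨k, i, hk, rfl⟩
      exact ⟨(⟨k, hk⟩, i), rfl⟩
    exact Set.Finite.subset (Set.finite_range _) this
  have hst : ∀ x ∈ s, ∃ k : ℕ, 0 < k ∧ k • x = 0 := by
    rintro x ⟨k, i, _, rfl⟩
    obtain ⟨n, hn, hn'⟩ := ht i
    exact ⟨n, hn, by rw [← map_nsmul, hn', map_zero]⟩
  have hTf := closure_finite s hsf hst
  set T := AddSubgroup.closure s with hT
  have hTH : ∀ k ∈ H, ∀ x ∈ T, k x ∈ T := by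
    intro k hk x hx
    refine AddSubgroup.closure_induction (p := fun x _ => k x ∈ T) ?_ ?_ ?_ ?_ hx
    · rintro y ⟨k', i, hk', rfl⟩
      exact AddSubgroup.subset_closure ⟨k'.trans k, i, Hmul k hk k' hk', rfl⟩
    · rw [map_zero]; exact T.zero_mem
    · intro y z _ _ hy hz
      rw [map_add]; exact T.add_mem hy hz
    · intro y _ hy
      rw [map_neg]; exact T.neg_mem hy
  -- the group of the maps `x ↦ k x + u`
  let G : Subgroup (Equiv.Perm A) :=
    { carrier := {f | ∃ k ∈ H, ∃ u ∈ T, ∀ x, f x = k x + u}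
      one_mem' := ⟨AddEquiv.refl A, H1, 0, T.zero_mem, fun x => by simp⟩
      mul_mem' := by
        rintro f f' ⟨k, hk, u, hu, hf⟩ ⟨k', hk', u', hu', hf'⟩
        refine ⟨k'.trans k, Hmul k hk k' hk', k u' + u, T.add_mem (hTH k hk u' hu') hu,
          fun x => ?_⟩
        rw [Equiv.Perm.mul_apply, hf, hf', map_add, add_assoc, AddEquiv.trans_apply]
      inv_mem' := by
        rintro f ⟨k, hk, u, hu, hf⟩
        refine ⟨k.symm, Hinv k hk, -(k.symm u), T.neg_mem (hTH _ (Hinv k hk) u hu),
          fun x => ?_⟩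
        rw [Equiv.Perm.inv_eq_iff_eq, hf, map_add, map_neg, AddEquiv.apply_symm_apply,
          AddEquiv.apply_symm_apply]
        abel }
  have hGf : (G : Set (Equiv.Perm A)).Finite := by
    have : Finite T := hTf.to_subtype
    let F : H × T → Set (Equiv.Perm A) := fun p => {f | ∀ x, f x = (p.1 : A ≃+ A) x + (p.2 : A)}
    have hsub : (G : Set (Equiv.Perm A)) ⊆ ⋃ p : H × T, F p := by
      rintro f ⟨k, hk, u, hu, hf⟩
      exact Set.mem_iUnion.mpr ⟨(⟨k, hk⟩, ⟨u, hu⟩), hf⟩
    refine Set.Finite.subset (Set.finite_iUnion fun p => ?_) hsub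
    refine Set.Subsingleton.finite ?_
    intro f hf f' hf'
    exact Equiv.ext fun x => (hf x).trans (hf' x).symm
  have hle : Subgroup.closure (Set.range g) ≤ G := by
    rw [Subgroup.closure_le]
    rintro _ ⟨i, rfl⟩
    exact ⟨h i, hh i, t i, AddSubgroup.subset_closure ⟨AddEquiv.refl A, i, H1, rfl⟩, hg i⟩
  exact (hGf.subset hle).to_subtype

end Pool.Agent.H11.MN
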