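import Pool.Agent.H11.MN.Gluing

/-!
# Chains over an elliptic curve without complex multiplication: the version with periods

`w₁`, `w₂` are the periods of the elliptic curve `E`, which has no complex multiplication: `w₁` and
`w₂` satisfy no quadratic relation over `ℚ`.  If multiplication by `δ` maps `ℚ w₁ + ℚ w₂` to
itself then `δ` is rational.  The three-cycles `C_γ` of a closed walk with holonomy `z ↦ lam z` are
invariant, their limit periods are `(2 π i)² δ ∫_γ dx` up to a rational factor, where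
`lam = exp (2 π i δ)`, and the limit periods of all invariant cycles are
`(2 π i)² (ℚ w₁ + ℚ w₂)`: so `lam` is a root of unity and the group of the gluing is finite.
-/

namespace Pool.Agent.H11.MN

/-- Multipliers of a lattice without complex multiplication are rational. -/
theorem rational_of_not_cm {w₁ w₂ δ : ℂ} (h1 : w₁ ≠ 0)
    (hcm : ∀ a b c : ℚ, (a : ℂ) * w₂ ^ 2 + b * (w₁ * w₂) + c * w₁ ^ 2 = 0 → a = 0)
    (hδ1 : ∃ a b : ℚ, δ * w₁ = a * w₁ + b * w₂) (hδ2 : ∃ c d : ℚ, δ * w₂ = c * w₁ + d * w₂) :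
    ∃ q : ℚ, δ = q := by
  obtain ⟨a, b, hab⟩ := hδ1
  obtain ⟨c, d, hcd⟩ := hδ2
  have h : (b : ℂ) * w₂ ^ 2 + ((a - d : ℚ) : ℂ) * (w₁ * w₂) + ((-c : ℚ) : ℂ) * w₁ ^ 2 = 0 := by
    push_cast
    linear_combination w₁ * hcd - w₂ * hab
  have hb : b = 0 := hcm b (a - d) (-c) h
  refine ⟨a, mul_right_cancel₀ h1 ?_⟩
  rw [hab, hb]
  simp

/-- **Chains over an elliptic curve, period form.**  For every closed walk whose holonomy is
`z ↦ lam z` there are `m > 0` and `δ` such that `lam ^ m = exp (2 π i δ)` and multiplication by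
`δ` maps the periods to rational combinations of the periods.  Then the group of the gluing is
finite. -/
theorem walk_finite_of_periods {D : Type*} [Finite D] (bar σ : Equiv.Perm D)
    (hbar : bar * bar = 1) (hσ : σ * σ = 1) (g : D → Equiv.Perm ℂˣ)
    (hg : ∀ d, g (σ d) = (g d)⁻¹) (c : D → ℂˣ) (s : D → Bool)
    (hgc : ∀ d, g d = mono (c d) (s d)) {w₁ w₂ : ℂ} (hw : w₁ ≠ 0)
    (hcm : ∀ a b c : ℚ, (a : ℂ) * w₂ ^ 2 + b * (w₁ * w₂) + c * w₁ ^ 2 = 0 → a = 0)
    (H : ∀ d n, 0 < n → (step bar σ)^[n] d = d → ∀ lam : ℂˣ,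
      hol bar σ g n d = mono lam false → ∃ (m : ℕ) (δ : ℂ), 0 < m ∧
        (lam : ℂ) ^ m = Complex.exp (2 * Real.pi * Complex.I * δ) ∧
        (∃ a b : ℚ, δ * w₁ = a * w₁ + b * w₂) ∧ ∃ a b : ℚ, δ * w₂ = a * w₁ + b * w₂) :
    Finite (Subgroup.closure {cross bar, glue σ g} : Subgroup (Equiv.Perm (D × ℂˣ))) := by
  refine walk_finite_of_mono bar σ hbar hσ g hg c s hgc ?_
  intro d n hn hd lam hlam
  obtain ⟨m, δ, hm, he, h1, h2⟩ := H d n hn hd lam hlam
  obtain ⟨k, hk, hk'⟩ := root_of_rational he (rational_of_not_cm hw hcm h1 h2)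
  refine ⟨m * k, Nat.mul_pos hm hk, Units.ext ?_⟩
  push_cast
  rw [pow_mul, hk']

end Pool.Agent.H11.MN
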