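import Pool.Agent.H11.MN.Gluing

/-!
# Two pure lemmas for the boundary divisors of type III

* `root_of_unity_of_ret`: a rational matrix `R` such that `μ • 1 + R` kills `w` and has image in the
  line of `w` makes `exp (2 π i μ)` a root of unity (the trace is zero).
* `finite_classes`: finitely many maps `x ↦ l x + t` of an abelian group, the linear parts in a
  finite group and the translations torsion: the classes are finite.
-/

namespace Pool.Agent.H11.MN

/-- The splitting of the extension gives a rational matrix `R` such that `μ • 1 + R` is in `F^0`: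
it kills `w` and its image is in the line of `w`.  Then `exp (2 π i μ)` is a root of unity. -/
theorem root_of_unity_of_ret (mu : ℂ) (R : Matrix (Fin 2) (Fin 2) ℚ) (w : Fin 2 → ℂ) (hw : w ≠ 0)
    (h1 : (mu • (1 : Matrix (Fin 2) (Fin 2) ℂ) + R.map (fun q => (q : ℂ))).mulVec w = 0)
    (h2 : ∀ y, ∃ s : ℂ,
      (mu • (1 : Matrix (Fin 2) (Fin 2) ℂ) + R.map (fun q => (q : ℂ))).mulVec y = s • w) :
    ∃ k : ℕ, 0 < k ∧ Complex.exp (2 * Real.pi * Complex.I * mu) ^ k = 1 := by
  refine root_of_rational rfl ?_
  refine rational_of_split (n := 2) (by norm_num) hw h1 h2 (R := -R) (δ := mu) ?_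
  ext i j
  simp only [Matrix.add_apply, Matrix.map_apply, Matrix.neg_apply, Rat.cast_neg]
  ring

/-- The same without the hypothesis `w ≠ 0`: if `w = 0` then `μ • 1 = -R`. -/
theorem root_of_unity_of_ret' (mu : ℂ) (R : Matrix (Fin 2) (Fin 2) ℚ) (w : Fin 2 → ℂ)
    (h1 : (mu • (1 : Matrix (Fin 2) (Fin 2) ℂ) + R.map (fun q => (q : ℂ))).mulVec w = 0)
    (h2 : ∀ y, ∃ s : ℂ,
      (mu • (1 : Matrix (Fin 2) (Fin 2) ℂ) + R.map (fun q => (q : ℂ))).mulVec y = s • w) :
    ∃ k : ℕ, 0 < k ∧ Complex.exp (2 * Real.pi * Complex.I * mu) ^ k = 1 := by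
  by_cases hw : w = 0
  · refine root_of_rational rfl ⟨-(R 0 0), ?_⟩
    obtain ⟨s, hs⟩ := h2 (Pi.single 0 1)
    rw [hw, smul_zero, Matrix.mulVec_single_one] at hs
    have h := congrFun hs 0
    simp only [Matrix.col_apply, Matrix.add_apply, Matrix.smul_apply, Matrix.one_apply_eq,
      smul_eq_mul, mul_one, Matrix.map_apply, Pi.zero_apply] at h
    push_cast
    linear_combination h
  · exact root_of_unity_of_ret mu R w hw h1 h2

/-- Finitely many maps `x ↦ l x + t` of an abelian group, the linear parts in a finite group `U`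
of automorphisms and the translations torsion: the classes of the relation which they generate are
finite. -/
theorem finite_classes {E ι : Type*} [AddCommGroup E] [Finite ι] (U : Set (E ≃+ E))
    (hU : U.Finite) (h1 : AddEquiv.refl E ∈ U) (hmul : ∀ k ∈ U, ∀ l ∈ U, l.trans k ∈ U)
    (hinv : ∀ k ∈ U, k.symm ∈ U) (lin : ι → E ≃+ E) (hl : ∀ i, lin i ∈ U) (t : ι → E)
    (ht : ∀ i, ∃ k : ℕ, 0 < k ∧ k • t i = 0) (x : E) :
    {y | Relation.EqvGen (fun x y => ∃ i, y = lin i x + t i) x y}.Finite := by
  let g : ι → Equiv.Perm E := fun i => (lin i).toEquiv.trans (Equiv.addRight (t i))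
  have hfin := finite_of_torsion U hU h1 hmul hinv lin hl t ht g (fun i x => rfl)
  have h2 := eqvGen_finite_of_group (Set.range g) hfin x
  refine h2.subset ?_
  intro y hy
  have key : ∀ a b, Relation.EqvGen (fun x y => ∃ i, y = lin i x + t i) a b →
      Relation.EqvGen (fun a b => ∃ f ∈ Set.range g, b = f a) a b := by
    intro a b hab
    induction hab with
    | rel a b h =>
        obtain ⟨i, hi⟩ := h
        exact Relation.EqvGen.rel _ _ ⟨g i, ⟨i, rfl⟩, hi⟩
    | refl a => exact Relation.EqvGen.refl a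
    | symm a b _ ih => exact Relation.EqvGen.symm _ _ ih
    | trans a b c _ _ ih1 ih2 => exact Relation.EqvGen.trans _ _ _ ih1 ih2
  exact key x y hy

/-- `finite_classes` for a finite subgroup of `AddAut E` (an additive group in Mathlib, the sum is
the composition). -/
theorem finite_classes' {E ι : Type*} [AddCommGroup E] [Finite ι] (U : AddSubgroup (AddAut E))
    (hU : (U : Set (AddAut E)).Finite) (lin : ι → AddAut E) (hl : ∀ i, lin i ∈ U) (t : ι → E)
    (ht : ∀ i, ∃ k : ℕ, 0 < k ∧ k • t i = 0) (x : E) :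
    {y | Relation.EqvGen (fun x y => ∃ i, y = lin i x + t i) x y}.Finite :=
  finite_classes (U : Set (AddAut E)) hU U.zero_mem (fun _ hk _ hl => U.add_mem hk hl)
    (fun _ hk => U.neg_mem hk) lin hl t ht x

end Pool.Agent.H11.MN
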